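import Pool.Agent.Work.MP_7b0bad_ag.HFinC

set_option autoImplicit false

namespace Pool.Agent.Work.MP_7b0bad_ag.Old.SpecialLinear

/-- Characteristic `p`, the quotients `G` of the groups `SL_n(F)`, `F` a finite field of
characteristic different from `p`: every `p`-subgroup `P` of `G` that contains the image of a
`p`-element `s` of `SL_n(F)`, outside the centre and leaving a proper nonzero subspace of `F^n`
invariant, is an inertia group over infinity of a `G`-Galois cover of the line unramified outside
infinity. -/
theorem result :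
    ∀ (p : ℕ) (k : Type) [Field k] [IsAlgClosed k] [CharP k p], p.Prime →
    ∀ (F : Type) [Field F] [Finite F] (n : ℕ), (p : F) ≠ 0 →
    ∀ (G : Type) [Group G] [Finite G] (f : Matrix.SpecialLinearGroup (Fin n) F →* G),
      Function.Surjective f →
    ∀ P : Subgroup G, IsPGroup p P →
      (∃ s : Matrix.SpecialLinearGroup (Fin n) F, (∃ m : ℕ, s ^ p ^ m = 1) ∧ f s ∈ P ∧
        s ∉ Subgroup.center (Matrix.SpecialLinearGroup (Fin n) F) ∧
        ∃ W : Submodule F (Fin n → F), W ≠ ⊥ ∧ W ≠ ⊤ ∧
          ∀ w ∈ W, (s : Matrix (Fin n) (Fin n) F).mulVec w ∈ W) →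
      ∃ (L : Type) (_ : Field L) (_ : Algebra (RatFunc k) L),
        FiniteDimensional (RatFunc k) L ∧ IsGalois (RatFunc k) L ∧
        ∃ φ : G ≃* (L ≃ₐ[RatFunc k] L),
          (∀ A : ValuationSubring L,
            (∀ c : k, algebraMap (RatFunc k) L (algebraMap k (RatFunc k) c) ∈ A) →
            algebraMap (RatFunc k) L RatFunc.X ∈ A →
            ValuationSubring.inertiaSubgroup (RatFunc k) A = ⊥) ∧
          ∃ A : ValuationSubring L,
            (∀ c : k, algebraMap (RatFunc k) L (algebraMap k (RatFunc k) c) ∈ A) ∧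
            algebraMap (RatFunc k) L RatFunc.X ∉ A ∧
            (ValuationSubring.inertiaSubgroup (RatFunc k) A).map
                (ValuationSubring.decompositionSubgroup (RatFunc k) A).subtype
              = P.map φ.toMonoidHom := by
  intro p k _ _ _ hp F _ _ n hpF G _ _ f hf P hP h
  have : Fact p.Prime := ⟨hp⟩
  exact MP7b0bad.all_HCritK k p G P hP (MP7b0bad.HFinC p F n hpF G f hf P h)

end Pool.Agent.Work.MP_7b0bad_ag.Old.SpecialLinear
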